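import Mathlib
import Pool.Agent.N720.SL.Stm2
import Pool.Agent.N720.SL.A1
set_option autoImplicit false

/-! # Project CY (helper720), piece TWO: necessity of `q ≥ 2` (helper306) -/

namespace Pool.Agent.N306.CY.TWO

open MeasureTheory Set Metric Complex
open scoped ENNReal NNReal RealInnerProductSpace
open Pool.Agent.H789R2.FR (sg sg_finite sg_ae)
open Pool.Agent.N720.SL (E ex ex_norm ex_cont cp cp_norm cp_cont S_RL S_TWO)

lemma ex_add (a b : ℝ) : ex (a + b) = ex a * ex b := by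
  unfold ex
  rw [← Complex.exp_add]
  congr 1
  push_cast
  ring

lemma ex_sub_norm (a b : ℝ) : ‖ex a - ex b‖ ≤ 2 * Real.pi * |a - b| := by
  have h1 : ex a = ex (a - b) * ex b := by
    rw [← ex_add]
    congr 1
    ring
  have h2 : ex a - ex b = (ex (a - b) - 1) * ex b := by
    rw [h1]
    ring
  rw [h2, norm_mul, ex_norm, mul_one]
  have h3 : ‖Complex.exp (Complex.I * ((2 * Real.pi * (a - b) : ℝ) : ℂ)) - 1‖ ≤
      ‖2 * Real.pi * (a - b)‖ := Real.norm_exp_I_mul_ofReal_sub_one_le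
  unfold ex
  rw [mul_comm Complex.I] at h3
  refine h3.trans (le_of_eq ?_)
  rw [Real.norm_eq_abs, abs_mul, abs_of_pos (by positivity : (0 : ℝ) < 2 * Real.pi)]

lemma sg_pos {n : ℕ} (hn : 0 < n) : 0 < (sg n).real univ := by
  have := sg_finite n
  have h0 : sg n univ ≠ 0 := by
    unfold sg
    rw [Measure.map_apply measurable_subtype_coe MeasurableSet.univ, preimage_univ]
    exact Pool.Agent.Helper36.SphMeas.toSphere_univ_ne_zero hn
  exact ENNReal.toReal_pos h0 (measure_ne_top _ _)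

/-- the index of the cube -/
noncomputable def J {m n : ℕ} (ι : E m →ₗᵢ[ℝ] E n) (K : ℕ) (x : E n) : Fin m → ℤ :=
  fun i => ⌊(K : ℝ) * (cp ι x) i⌋

lemma J_meas {m n : ℕ} (ι : E m →ₗᵢ[ℝ] E n) (K : ℕ) : Measurable (J ι K) := by
  rw [measurable_pi_iff]
  intro i
  unfold J
  have h1 : Measurable fun x : E n => (K : ℝ) * (cp ι x) i := by
    have h2 : Continuous fun x : E n => (cp ι x) i := by
      have := cp_cont ι
      fun_prop
    exact (continuous_const.mul h2).measurable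
  exact Int.measurable_floor.comp h1

/-- the index set -/
noncomputable def T (m K : ℕ) : Finset (Fin m → ℤ) :=
  Fintype.piFinset (fun _ => Finset.Icc (-(K : ℤ)) K)

lemma T_card (m K : ℕ) : ((T m K).card : ℝ) = (2 * (K : ℝ) + 1) ^ m := by
  unfold T
  rw [Fintype.card_piFinset]
  simp only [Int.card_Icc, Finset.prod_const, Finset.card_univ, Fintype.card_fin]
  have : ((K : ℤ) + 1 - -(K : ℤ)).toNat = 2 * K + 1 := by omega
  rw [this]
  push_cast
  ring

lemma coord_le {m : ℕ} (z : E m) (i : Fin m) : |z i| ≤ ‖z‖ := by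
  have := EuclideanSpace.norm_sq_eq z
  have h2 : ‖z i‖ ^ 2 ≤ ∑ i, ‖z i‖ ^ 2 :=
    Finset.single_le_sum (f := fun i => ‖z i‖ ^ 2) (fun i _ => sq_nonneg _) (Finset.mem_univ i)
  rw [← this] at h2
  rw [← Real.norm_eq_abs]
  exact (pow_le_pow_iff_left₀ (norm_nonneg _) (norm_nonneg _) two_ne_zero).1 h2

lemma J_mem {m n : ℕ} (ι : E m →ₗᵢ[ℝ] E n) (K : ℕ) (x : E n) (hx : ‖x‖ = 1) :
    J ι K x ∈ T m K := by
  unfold T
  rw [Fintype.mem_piFinset]
  intro i
  rw [Finset.mem_Icc]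
  unfold J
  have h1 : |(cp ι x) i| ≤ 1 := (coord_le _ i).trans ((cp_norm ι x).trans hx.le)
  have h2 := abs_le.1 h1
  have hK : (0 : ℝ) ≤ K := Nat.cast_nonneg K
  constructor
  · rw [Int.le_floor]
    push_cast
    nlinarith [h2.1]
  · have h3 : ((⌊(K : ℝ) * (cp ι x) i⌋ : ℤ) : ℝ) ≤ K := (Int.floor_le _).trans (by nlinarith [h2.2])
    exact_mod_cast h3

/-- the corner of the cube -/
noncomputable def z {m : ℕ} (K : ℕ) (j : Fin m → ℤ) : E m :=
  WithLp.toLp 2 (fun i => (j i : ℝ) / K)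

lemma corner_norm {m n : ℕ} (ι : E m →ₗᵢ[ℝ] E n) (K : ℕ) (hK : 1 ≤ K) (x : E n) :
    ‖cp ι x - z K (J ι K x)‖ ≤ Real.sqrt m / K := by
  have hK0 : (0 : ℝ) < K := by exact_mod_cast hK
  rw [EuclideanSpace.norm_eq]
  have h1 : ∀ i, ‖(cp ι x - z K (J ι K x)) i‖ ^ 2 ≤ (1 / (K : ℝ)) ^ 2 := by
    intro i
    have e1 : (cp ι x - z K (J ι K x)) i = ((K : ℝ) * (cp ι x) i - ⌊(K : ℝ) * (cp ι x) i⌋) / K := by
      have : (cp ι x - z K (J ι K x)) i = (cp ι x) i - (J ι K x i : ℝ) / K := rfl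
      rw [this]
      unfold J
      field_simp
    rw [e1, Real.norm_eq_abs, sq_abs]
    have h2 := Int.floor_le ((K : ℝ) * (cp ι x) i)
    have h3 := Int.lt_floor_add_one ((K : ℝ) * (cp ι x) i)
    refine pow_le_pow_left₀ (div_nonneg (by linarith) hK0.le) ?_ 2
    exact div_le_div_of_nonneg_right (by linarith) hK0.le
  have h4 : ∑ i, ‖(cp ι x - z K (J ι K x)) i‖ ^ 2 ≤ (Real.sqrt m / K) ^ 2 := by
    refine (Finset.sum_le_sum fun i _ => h1 i).trans (le_of_eq ?_)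
    rw [Finset.sum_const, Finset.card_univ, Fintype.card_fin, nsmul_eq_mul, div_pow, div_pow,
      Real.sq_sqrt (Nat.cast_nonneg m)]
    ring
  calc _ ≤ Real.sqrt ((Real.sqrt m / K) ^ 2) := Real.sqrt_le_sqrt h4
    _ = _ := Real.sqrt_sq (by positivity)

lemma inner_cp {m n : ℕ} (ι : E m →ₗᵢ[ℝ] E n) (x : E n) (y : E m) : ⟪x, ι y⟫ = ⟪cp ι x, y⟫ := by
  unfold cp
  rw [ContinuousLinearMap.adjoint_inner_left]
  rfl

lemma piece_lower {m k : ℕ} (hm : 1 ≤ m) (ι : E m →ₗᵢ[ℝ] E (m + k)) (κ : E k →ₗᵢ[ℝ] E (m + k))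
    (K : ℕ) (hK : 1 ≤ K) (j : Fin m → ℤ) (y : E m) (v : E k)
    (hy : ‖y‖ ≤ K * (1 / (100 * Real.sqrt m))) (hv : ‖v‖ ≤ 1 / 100) :
    3 / 4 * (sg (m + k)).real (J ι K ⁻¹' {j}) ≤
      ‖∫ x in J ι K ⁻¹' {j}, ex (-⟪x, ι y + κ v⟫) ∂(sg (m + k))‖ := by
  have := sg_finite (m + k)
  have hK0 : (0 : ℝ) < K := by exact_mod_cast hK
  have hm0 : (0 : ℝ) < m := by exact_mod_cast hm
  have hsm : 0 < Real.sqrt m := Real.sqrt_pos.2 hm0
  set U : Set (E (m + k)) := J ι K ⁻¹' {j} with hU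
  have hUm : MeasurableSet U := J_meas ι K (measurableSet_singleton j)
  have hi : Integrable (fun x => ex (-⟪x, ι y + κ v⟫)) ((sg (m + k)).restrict U) := by
    refine Integrable.of_bound (C := 1) ?_ (Filter.Eventually.of_forall fun x => (ex_norm _).le)
    exact (ex_cont.comp (by fun_prop)).aestronglyMeasurable
  have h1 : ‖∫ x in U, (ex (-⟪x, ι y + κ v⟫) - ex (-⟪z K j, y⟫)) ∂(sg (m + k))‖ ≤
      1 / 4 * (sg (m + k)).real U := by
    refine norm_setIntegral_le_of_norm_le_const_ae' (measure_lt_top _ _) ?_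
    filter_upwards [sg_ae (m + k)] with x hx hxU
    refine (ex_sub_norm _ _).trans ?_
    have hj : J ι K x = j := hxU
    have e1 : -⟪x, ι y + κ v⟫ - -⟪z K j, y⟫ = -(⟪cp ι x - z K (J ι K x), y⟫ + ⟪x, κ v⟫) := by
      rw [inner_add_right, inner_cp, inner_sub_left, hj]
      ring
    rw [e1, abs_neg]
    have h2 : |⟪cp ι x - z K (J ι K x), y⟫| ≤ 1 / 100 := by
      refine (abs_real_inner_le_norm _ _).trans ?_
      calc _ ≤ Real.sqrt m / K * (K * (1 / (100 * Real.sqrt m))) :=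
            mul_le_mul (corner_norm ι K hK x) hy (norm_nonneg _) (by positivity)
        _ = 1 / 100 := by field_simp
    have h3 : |⟪x, κ v⟫| ≤ 1 / 100 := by
      refine (abs_real_inner_le_norm _ _).trans ?_
      rw [hx, one_mul, κ.norm_map]
      exact hv
    have h4 : |⟪cp ι x - z K (J ι K x), y⟫ + ⟪x, κ v⟫| ≤ 1 / 50 :=
      (abs_add_le _ _).trans (by linarith)
    have hp := Real.pi_lt_four
    have hp0 := Real.pi_pos
    calc 2 * Real.pi * |⟪cp ι x - z K (J ι K x), y⟫ + ⟪x, κ v⟫| ≤ 2 * 4 * (1 / 50) :=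
          mul_le_mul (by linarith) h4 (abs_nonneg _) (by norm_num)
      _ ≤ 1 / 4 := by norm_num
  rw [integral_sub hi (integrable_const _), integral_const] at h1
  have h5 : ‖(((sg (m + k)).restrict U).real univ • ex (-⟪z K j, y⟫) : ℂ)‖ =
      (sg (m + k)).real U := by
    rw [norm_smul, ex_norm, mul_one, measureReal_restrict_apply MeasurableSet.univ, univ_inter,
      Real.norm_of_nonneg measureReal_nonneg]
  have h6 := norm_sub_norm_le (((sg (m + k)).restrict U).real univ • ex (-⟪z K j, y⟫) : ℂ)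
    (∫ x in U, ex (-⟪x, ι y + κ v⟫) ∂(sg (m + k)))
  rw [norm_sub_rev, h5] at h6
  linarith

lemma pm {α : Type*} (T : Finset α) (s : α → ℝ) (hs : ∀ j ∈ T, 0 ≤ s j) (S : ℝ) (hS : 0 < S)
    (hsum : ∑ j ∈ T, s j = S) (q : ℝ) (hq : 0 < q) :
    S ^ q * (T.card : ℝ) ^ (1 - max q 1) ≤ ∑ j ∈ T, s j ^ q := by
  have hne : T.Nonempty := by
    by_contra h
    rw [Finset.not_nonempty_iff_eq_empty] at h
    rw [h, Finset.sum_empty] at hsum
    linarith
  have hN : (0 : ℝ) < T.card := by exact_mod_cast hne.card_pos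
  have h1 : (∑ j ∈ T, |s j / S|) ^ (max q 1) ≤
      (T.card : ℝ) ^ (max q 1 - 1) * ∑ j ∈ T, |s j / S| ^ (max q 1) :=
    Real.rpow_sum_le_const_mul_sum_rpow _ _ (le_max_right _ _)
  have h2 : ∑ j ∈ T, |s j / S| = 1 := by
    have : ∀ j ∈ T, |s j / S| = s j / S := fun j hj =>
      abs_of_nonneg (div_nonneg (hs j hj) hS.le)
    rw [Finset.sum_congr rfl this, ← Finset.sum_div, hsum, div_self hS.ne']
  rw [h2, Real.one_rpow] at h1
  have h3 : ∀ j ∈ T, |s j / S| ^ (max q 1) ≤ s j ^ q / S ^ q := by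
    intro j hj
    have hle : s j ≤ S := by
      rw [← hsum]
      exact Finset.single_le_sum hs hj
    rw [abs_of_nonneg (div_nonneg (hs j hj) hS.le), ← Real.div_rpow (hs j hj) hS.le]
    exact Real.rpow_le_rpow_of_exponent_ge' (div_nonneg (hs j hj) hS.le)
      ((div_le_one hS).2 hle) hq.le (le_max_left _ _)
  have h4 : 1 ≤ (T.card : ℝ) ^ (max q 1 - 1) * ((∑ j ∈ T, s j ^ q) / S ^ q) := by
    refine h1.trans (mul_le_mul_of_nonneg_left ?_ (Real.rpow_nonneg hN.le _))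
    rw [Finset.sum_div]
    exact Finset.sum_le_sum h3
  have hSq : 0 < S ^ q := Real.rpow_pos_of_pos hS _
  have h5 : (T.card : ℝ) ^ (1 - max q 1) * (T.card : ℝ) ^ (max q 1 - 1) = 1 := by
    rw [← Real.rpow_add hN]
    simp
  have h6 : 0 < (T.card : ℝ) ^ (1 - max q 1) := Real.rpow_pos_of_pos hN _
  calc S ^ q * (T.card : ℝ) ^ (1 - max q 1)
      = S ^ q * (T.card : ℝ) ^ (1 - max q 1) * 1 := by ring
    _ ≤ S ^ q * (T.card : ℝ) ^ (1 - max q 1) *
        ((T.card : ℝ) ^ (max q 1 - 1) * ((∑ j ∈ T, s j ^ q) / S ^ q)) :=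
        mul_le_mul_of_nonneg_left h4 (by positivity)
    _ = ((T.card : ℝ) ^ (1 - max q 1) * (T.card : ℝ) ^ (max q 1 - 1)) *
        (S ^ q * ((∑ j ∈ T, s j ^ q) / S ^ q)) := by ring
    _ = ∑ j ∈ T, s j ^ q := by
        rw [h5, one_mul, mul_div_cancel₀ _ hSq.ne']

lemma growth (m : ℕ) (hm : 1 ≤ m) (p : ℝ) (hp1 : 1 ≤ p) (hp2 : p < 2) (a M : ℝ) (ha : 0 < a) :
    ∃ K : ℕ, 1 ≤ K ∧ M < ((K : ℝ) * a) ^ m * ((2 * (K : ℝ) + 1) ^ m) ^ (1 - p) := by
  have h1 : Filter.Tendsto (fun K : ℕ => (a * 3 ^ (1 - p)) * ((K : ℝ) ^ (2 - p)))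
      Filter.atTop Filter.atTop :=
    Filter.Tendsto.const_mul_atTop (by positivity)
      ((tendsto_rpow_atTop (by linarith : 0 < 2 - p)).comp tendsto_natCast_atTop_atTop)
  obtain ⟨K, hK1, hK2⟩ := ((h1.eventually_gt_atTop (max M 1)).and
    (Filter.eventually_ge_atTop 1)).exists
  refine ⟨K, hK2, ?_⟩
  have hK0 : (0 : ℝ) < K := by exact_mod_cast hK2
  have hK1' : (1 : ℝ) ≤ K := by exact_mod_cast hK2
  have h2 : (3 * (K : ℝ)) ^ (1 - p) ≤ (2 * (K : ℝ) + 1) ^ (1 - p) :=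
    Real.rpow_le_rpow_of_nonpos (by positivity) (by linarith) (by linarith)
  have h3 : (a * 3 ^ (1 - p)) * ((K : ℝ) ^ (2 - p)) = (K : ℝ) * a * (3 * (K : ℝ)) ^ (1 - p) := by
    rw [Real.mul_rpow (by norm_num) hK0.le]
    have : (K : ℝ) ^ (2 - p) = K * (K : ℝ) ^ (1 - p) := by
      rw [← Real.rpow_one_add' hK0.le (by linarith)]
      congr 1
      ring
    rw [this]
    ring
  have h4 : max M 1 < (K : ℝ) * a * (2 * (K : ℝ) + 1) ^ (1 - p) := by
    rw [h3] at hK1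
    exact hK1.trans_le (mul_le_mul_of_nonneg_left h2 (by positivity))
  have h5 : ((K : ℝ) * a) ^ m * ((2 * (K : ℝ) + 1) ^ m) ^ (1 - p) =
      ((K : ℝ) * a * (2 * (K : ℝ) + 1) ^ (1 - p)) ^ m := by
    rw [mul_pow ((K : ℝ) * a), ← Real.rpow_natCast (2 * (K : ℝ) + 1) m, ← Real.rpow_mul (by positivity),
      ← Real.rpow_natCast ((2 * (K : ℝ) + 1) ^ (1 - p)) m, ← Real.rpow_mul (by positivity),
      mul_comm (m : ℝ)]
  rw [h5]
  calc M ≤ max M 1 := le_max_left _ _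
    _ < (K : ℝ) * a * (2 * (K : ℝ) + 1) ^ (1 - p) := h4
    _ = ((K : ℝ) * a * (2 * (K : ℝ) + 1) ^ (1 - p)) ^ 1 := (pow_one _).symm
    _ ≤ _ := pow_le_pow_right₀ ((le_max_right M 1).trans h4.le) hm

theorem main (hRL : S_RL) : S_TWO := by
  intro m k hm hk ι κ horth ν hν q hq0 hq2
  rintro ⟨C, hC⟩
  have := sg_finite (m + k)
  set μ := sg (m + k) with hμ
  set S0 : ℝ := μ.real univ with hS0
  have hS0p : 0 < S0 := sg_pos (by omega)
  obtain ⟨w0, hw0⟩ : ∃ w0 : E k, 0 < ν (ball w0 (1 / 100)) := by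
    have h1 : ν univ ≠ 0 := by rwa [Measure.measure_univ_ne_zero]
    obtain ⟨x, _, hx⟩ := exists_mem_forall_mem_nhdsWithin_pos_measure h1
    exact ⟨x, hx _ (by rw [nhdsWithin_univ]; exact ball_mem_nhds x (by norm_num))⟩
  set B := ball w0 (1 / 100) with hB
  set V : ℝ := (volume (ball (0 : E m) 1)).toReal with hVdef
  have hVe : volume (ball (0 : E m) 1) = ENNReal.ofReal V :=
    (ENNReal.ofReal_toReal measure_ball_lt_top.ne).symm
  have hV : 0 < V := ENNReal.toReal_pos (measure_ball_pos _ _ one_pos).ne' measure_ball_lt_top.ne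
  set b : ℝ := (min (ν B) 1).toReal with hbdef
  have hbfin : min (ν B) 1 ≠ ∞ := (lt_of_le_of_lt (min_le_right _ _) ENNReal.one_lt_top).ne
  have hb : 0 < b := ENNReal.toReal_pos (lt_min hw0 one_pos).ne' hbfin
  have hbB : ENNReal.ofReal b ≤ ν B := by
    rw [hbdef, ENNReal.ofReal_toReal hbfin]
    exact min_le_left _ _
  have hm0 : (0 : ℝ) < m := by exact_mod_cast hm
  have hsm : 0 < Real.sqrt m := Real.sqrt_pos.2 hm0
  have : Nonempty (Fin m) := ⟨⟨0, hm⟩⟩
  have hfac : 0 < b * V * (1 / 2 : ℝ) ^ q * S0 ^ q := by positivity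
  obtain ⟨K, hK1, hK⟩ := growth m hm (max q 1) (le_max_right _ _) (max_lt hq2 (by norm_num))
    (1 / (100 * Real.sqrt m)) (C / (b * V * (1 / 2 : ℝ) ^ q * S0 ^ q)) (by positivity)
  have hK0 : (0 : ℝ) < K := by exact_mod_cast hK1
  set ρ : ℝ := K * (1 / (100 * Real.sqrt m)) with hρ
  have hρ0 : 0 < ρ := by positivity
  set s : (Fin m → ℤ) → ℝ := fun j => μ.real (J ι K ⁻¹' {j}) with hs
  have hUm : ∀ j : Fin m → ℤ, MeasurableSet (J ι K ⁻¹' {j}) := fun j =>
    J_meas ι K (measurableSet_singleton j)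
  have hTae : (J ι K ⁻¹' (T m K : Set (Fin m → ℤ)) : Set (E (m + k))) =ᵐ[μ] univ := by
    rw [Filter.eventuallyEq_univ]
    filter_upwards [sg_ae (m + k)] with x hx
    exact J_mem ι K x hx
  have hsum : ∑ j ∈ T m K, s j = S0 := by
    rw [hs, sum_measureReal_preimage_singleton _ (fun j _ => hUm j)]
    exact measureReal_congr hTae
  have hsnn : ∀ j, 0 ≤ s j := fun j => measureReal_nonneg
  obtain ⟨δ, hδ, hδs⟩ : ∃ δ : ℝ, 0 < δ ∧ ∀ j ∈ T m K, 0 < s j → δ ≤ s j := by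
    have h1 : ∀ᶠ δ in nhdsWithin (0 : ℝ) (Ioi 0), ∀ j ∈ T m K, 0 < s j → δ ≤ s j := by
      rw [Filter.eventually_all_finset]
      intro j hj
      by_cases h : 0 < s j
      · filter_upwards [Ioo_mem_nhdsGT h] with δ hδ _ using hδ.2.le
      · exact Filter.Eventually.of_forall fun δ h' => absurd h' h
    obtain ⟨δ, hδ1, hδ2⟩ := (h1.and self_mem_nhdsWithin).exists
    exact ⟨δ, hδ2, hδ1⟩
  set N : ℝ := ((T m K).card : ℝ) with hN
  have hN0 : 0 ≤ N := Nat.cast_nonneg _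
  set η : ℝ := δ / (4 * (N + 1)) with hη
  have hN1 : 0 < 4 * (N + 1) := by linarith
  have hη0 : 0 < η := div_pos hδ hN1
  have hNη : N * η ≤ δ / 4 := by
    rw [hη, mul_div_assoc', div_le_div_iff₀ hN1 (by norm_num)]
    nlinarith
  have hR : ∀ j : Fin m → ℤ, ∃ R : ℝ, ∀ ξ : E (m + k), R ≤ ‖ξ‖ →
      ‖∫ x in J ι K ⁻¹' {j}, ex (-⟪x, ξ⟫) ∂μ‖ ≤ η := by
    intro j
    obtain ⟨R, hR⟩ := hRL (m + k) (by omega) ((J ι K ⁻¹' {j}).indicator (fun _ => (1 : ℂ)))
      ((integrable_const _).indicator (hUm j)) η hη0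
    refine ⟨R, fun ξ hξ => ?_⟩
    have h1 := hR ξ hξ
    rw [← integral_indicator (hUm j)]
    refine le_of_eq_of_le ?_ h1
    congr 2
    ext x
    by_cases hx : x ∈ J ι K ⁻¹' {j}
    · rw [indicator_of_mem hx, indicator_of_mem hx, one_mul]
    · rw [indicator_of_notMem hx, indicator_of_notMem hx, zero_mul]
  choose Rj hRj using hR
  set R : ℝ := ∑ j ∈ T m K, |Rj j| with hRdef
  have hR0 : 0 ≤ R := Finset.sum_nonneg fun _ _ => abs_nonneg _
  have hRle : ∀ j ∈ T m K, Rj j ≤ R := fun j hj =>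
    (le_abs_self _).trans (Finset.single_le_sum (f := fun j => |Rj j|) (fun _ _ => abs_nonneg _) hj)
  set D : ℝ := R + 2 * ρ + 1 with hD
  have hD0 : 0 < D := by positivity
  set u : E m := EuclideanSpace.single ⟨0, hm⟩ (1 : ℝ) with hu
  have hu1 : ‖u‖ = 1 := by rw [hu]; simp
  set a : (Fin m → ℤ) → E m := fun j => (D * (Encodable.encode j : ℝ)) • u with ha
  have hadist : ∀ i j : Fin m → ℤ, i ≠ j → D ≤ ‖a i - a j‖ := by
    intro i j hij
    have e1 : a i - a j = (D * ((Encodable.encode i : ℝ) - (Encodable.encode j : ℝ))) • u := by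
      simp only [ha]
      rw [← sub_smul]
      congr 1
      ring
    rw [e1, norm_smul, hu1, mul_one, norm_mul, Real.norm_of_nonneg hD0.le, Real.norm_eq_abs]
    have h1 : (1 : ℝ) ≤ |(Encodable.encode i : ℝ) - (Encodable.encode j : ℝ)| := by
      have h2 : (Encodable.encode i : ℤ) - (Encodable.encode j : ℤ) ≠ 0 := by
        intro h
        apply hij
        apply Encodable.encode_injective
        omega
      have h3 : (1 : ℤ) ≤ |(Encodable.encode i : ℤ) - (Encodable.encode j : ℤ)| :=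
        Int.one_le_abs h2
      exact_mod_cast h3
    nlinarith
  set f : E (m + k) → ℂ := fun x => ex ⟪x, ι (a (J ι K x)) + κ w0⟫ with hf
  have hfm : Measurable f := by
    have h1 : Measurable fun x : E (m + k) => a (J ι K x) :=
      (Measurable.of_discrete (f := a)).comp (J_meas ι K)
    have h2 : Measurable fun x : E (m + k) => ι (a (J ι K x)) + κ w0 :=
      (ι.continuous.measurable.comp h1).add_const _
    exact ex_cont.measurable.comp (measurable_id.inner h2)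
  have hfn : ∀ x, ‖f x‖ ≤ 1 := fun x => (ex_norm _).le
  have hFf : ∀ (y : E m) (w : E k), ∫ x, f x * ex (-⟪x, ι y + κ w⟫) ∂μ =
      ∑ j ∈ T m K, ∫ x in J ι K ⁻¹' {j}, ex (-⟪x, ι (y - a j) + κ (w - w0)⟫) ∂μ := by
    intro y w
    have hi : Integrable (fun x => f x * ex (-⟪x, ι y + κ w⟫)) μ := by
      refine Integrable.of_bound (C := 1) ?_ (Filter.Eventually.of_forall fun x => ?_)
      · exact (hfm.mul (ex_cont.comp (by fun_prop)).measurable).aestronglyMeasurable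
      · rw [norm_mul, ex_norm (-⟪x, ι y + κ w⟫), mul_one]
        exact hfn x
    have e0 : (J ι K ⁻¹' (T m K : Set (Fin m → ℤ)) : Set (E (m + k))) =
        ⋃ j ∈ T m K, J ι K ⁻¹' {j} := by
      ext x
      simp
    rw [← setIntegral_univ, ← setIntegral_congr_set hTae, e0,
      integral_biUnion_finset _ (fun j _ => hUm j) ?_ (fun j _ => hi.integrableOn)]
    · refine Finset.sum_congr rfl fun j _ => ?_
      refine setIntegral_congr_fun (hUm j) fun x hx => ?_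
      have hj : J ι K x = j := hx
      simp only [hf]
      rw [hj, ← ex_add]
      congr 1
      rw [map_sub, map_sub, inner_add_right, inner_add_right, inner_add_right, inner_sub_right,
        inner_sub_right]
      ring
    · intro i _ j _ hij
      exact Disjoint.preimage _ (disjoint_singleton.2 hij)
  have hnorm : ∀ (y : E m) (v : E k), ‖y‖ ≤ ‖ι y + κ v‖ := by
    intro y v
    have h1 : ‖ι y + κ v‖ ^ 2 = ‖y‖ ^ 2 + ‖v‖ ^ 2 := by
      rw [norm_add_sq_real, horth, ι.norm_map, κ.norm_map]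
      ring
    refine (pow_le_pow_iff_left₀ (norm_nonneg _) (norm_nonneg _) two_ne_zero).1 ?_
    rw [h1]
    nlinarith [sq_nonneg ‖v‖]
  have hlow : ∀ j ∈ T m K, ∀ y ∈ ball (a j) ρ, ∀ w ∈ B,
      s j / 2 ≤ ‖∫ x, f x * ex (-⟪x, ι y + κ w⟫) ∂μ‖ := by
    intro j hj y hy w hw
    rcases (hsnn j).eq_or_lt with h0 | hpos
    · rw [← h0, zero_div]
      exact norm_nonneg _
    have hy' : ‖y - a j‖ < ρ := by rwa [mem_ball, dist_eq_norm] at hy
    have hw' : ‖w - w0‖ < 1 / 100 := by rwa [hB, mem_ball, dist_eq_norm] at hw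
    rw [hFf y w, ← Finset.add_sum_erase _ _ hj]
    have h1 : 3 / 4 * s j ≤ ‖∫ x in J ι K ⁻¹' {j}, ex (-⟪x, ι (y - a j) + κ (w - w0)⟫) ∂μ‖ :=
      piece_lower hm ι κ K hK1 j (y - a j) (w - w0) hy'.le hw'.le
    have h2 : ‖∑ i ∈ (T m K).erase j,
        ∫ x in J ι K ⁻¹' {i}, ex (-⟪x, ι (y - a i) + κ (w - w0)⟫) ∂μ‖ ≤ N * η := by
      have h3 : ∀ i ∈ (T m K).erase j,
          ‖∫ x in J ι K ⁻¹' {i}, ex (-⟪x, ι (y - a i) + κ (w - w0)⟫) ∂μ‖ ≤ η := by
        intro i hi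
        have hij := Finset.ne_of_mem_erase hi
        have hiT := Finset.mem_of_mem_erase hi
        refine hRj i _ ?_
        have h4 : D ≤ ‖a i - a j‖ := hadist i j hij
        have h5 : ‖a i - a j‖ ≤ ‖y - a i‖ + ‖y - a j‖ := by
          have : a i - a j = (y - a j) - (y - a i) := by abel
          rw [this]
          exact (norm_sub_le _ _).trans (by linarith)
        have h6 := hRle i hiT
        refine le_trans ?_ (hnorm (y - a i) (w - w0))
        linarith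
      refine (norm_sum_le_of_le _ h3).trans ?_
      rw [Finset.sum_const, nsmul_eq_mul]
      refine mul_le_mul_of_nonneg_right ?_ hη0.le
      rw [hN]
      exact_mod_cast Finset.card_le_card (Finset.erase_subset _ _)
    have h7 := norm_sub_norm_le (∫ x in J ι K ⁻¹' {j}, ex (-⟪x, ι (y - a j) + κ (w - w0)⟫) ∂μ)
      (-∑ i ∈ (T m K).erase j,
        ∫ x in J ι K ⁻¹' {i}, ex (-⟪x, ι (y - a i) + κ (w - w0)⟫) ∂μ)
    rw [sub_neg_eq_add, norm_neg] at h7
    have h8 := hδs j hj hpos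
    linarith
  have hlow2 : ∀ w ∈ B, ENNReal.ofReal (∑ j ∈ T m K, (s j / 2) ^ q * (ρ ^ m * V)) ≤
      ∫⁻ y : E m, ‖∫ x, f x * ex (-⟪x, ι y + κ w⟫) ∂μ‖ₑ ^ q := by
    intro w hw
    have hdisj : Set.PairwiseDisjoint (T m K : Set (Fin m → ℤ)) (fun j => ball (a j) ρ) := by
      intro i _ j _ hij
      refine ball_disjoint_ball ?_
      rw [dist_eq_norm]
      have := hadist i j hij
      linarith
    calc ENNReal.ofReal (∑ j ∈ T m K, (s j / 2) ^ q * (ρ ^ m * V))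
        = ∑ j ∈ T m K, ENNReal.ofReal ((s j / 2) ^ q) * volume (ball (a j) ρ) := by
          rw [ENNReal.ofReal_sum_of_nonneg (fun j _ => by have := hsnn j; positivity)]
          refine Finset.sum_congr rfl fun j _ => ?_
          have := hsnn j
          rw [ENNReal.ofReal_mul (by positivity), ENNReal.ofReal_mul (by positivity), ← hVe,
            Measure.addHaar_ball _ _ hρ0.le]
          simp
      _ = ∑ j ∈ T m K, ∫⁻ y in ball (a j) ρ, ENNReal.ofReal ((s j / 2) ^ q) := by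
          refine Finset.sum_congr rfl fun j _ => ?_
          rw [setLIntegral_const]
      _ ≤ ∑ j ∈ T m K, ∫⁻ y in ball (a j) ρ, ‖∫ x, f x * ex (-⟪x, ι y + κ w⟫) ∂μ‖ₑ ^ q := by
          refine Finset.sum_le_sum fun j hj => ?_
          refine setLIntegral_mono' measurableSet_ball fun y hy => ?_
          have h1 := hlow j hj y hy w hw
          have h2 : 0 ≤ s j / 2 := by have := hsnn j; positivity
          rw [← ENNReal.ofReal_rpow_of_nonneg h2 hq0.le]
          refine ENNReal.rpow_le_rpow ?_ hq0.le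
          rw [← ofReal_norm]
          exact ENNReal.ofReal_le_ofReal h1
      _ = ∫⁻ y in ⋃ j ∈ T m K, ball (a j) ρ, ‖∫ x, f x * ex (-⟪x, ι y + κ w⟫) ∂μ‖ₑ ^ q := by
          rw [lintegral_biUnion_finset hdisj (fun j _ => measurableSet_ball)]
      _ ≤ _ := setLIntegral_le_lintegral _ _
  have hbig : ENNReal.ofReal (∑ j ∈ T m K, (s j / 2) ^ q * (ρ ^ m * V)) * ENNReal.ofReal b ≤ C := by
    refine le_trans ?_ (hC f hfm hfn)
    calc _ ≤ ENNReal.ofReal (∑ j ∈ T m K, (s j / 2) ^ q * (ρ ^ m * V)) * ν B :=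
          mul_le_mul_right hbB _
      _ = ∫⁻ w in B, ENNReal.ofReal (∑ j ∈ T m K, (s j / 2) ^ q * (ρ ^ m * V)) ∂ν := by
          rw [setLIntegral_const]
      _ ≤ ∫⁻ w in B, (∫⁻ y : E m, ‖∫ x, f x * ex (-⟪x, ι y + κ w⟫) ∂μ‖ₑ ^ q) ∂ν :=
          setLIntegral_mono' measurableSet_ball hlow2
      _ ≤ _ := setLIntegral_le_lintegral _ _
  have hXnn : 0 ≤ ∑ j ∈ T m K, (s j / 2) ^ q * (ρ ^ m * V) :=
    Finset.sum_nonneg fun j _ => by have := hsnn j; positivity
  rw [← ENNReal.ofReal_mul hXnn, ← ENNReal.ofReal_coe_nnreal] at hbig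
  have hreal : (∑ j ∈ T m K, (s j / 2) ^ q * (ρ ^ m * V)) * b ≤ C :=
    (ENNReal.ofReal_le_ofReal_iff C.2).1 hbig
  have hpm := pm (T m K) s (fun j _ => hsnn j) S0 hS0p hsum q hq0
  have e1 : ∑ j ∈ T m K, (s j / 2) ^ q * (ρ ^ m * V) =
      (1 / 2 : ℝ) ^ q * (ρ ^ m * V) * ∑ j ∈ T m K, s j ^ q := by
    rw [Finset.mul_sum]
    refine Finset.sum_congr rfl fun j _ => ?_
    rw [show s j / 2 = (1 / 2) * s j by ring, Real.mul_rpow (by norm_num) (hsnn j)]
    ring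
  rw [e1] at hreal
  rw [div_lt_iff₀ hfac] at hK
  have e2 : (T m K).card = (2 * (K : ℝ) + 1) ^ m := T_card m K
  rw [e2] at hpm
  have h9 : (1 / 2 : ℝ) ^ q * (ρ ^ m * V) * (S0 ^ q * ((2 * (K : ℝ) + 1) ^ m) ^ (1 - max q 1)) * b ≤
      (1 / 2 : ℝ) ^ q * (ρ ^ m * V) * (∑ j ∈ T m K, s j ^ q) * b := by
    refine mul_le_mul_of_nonneg_right (mul_le_mul_of_nonneg_left hpm (by positivity)) hb.le
  have h10 : ρ ^ m * ((2 * (K : ℝ) + 1) ^ m) ^ (1 - max q 1) * (b * V * (1 / 2 : ℝ) ^ q * S0 ^ q) =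
      (1 / 2 : ℝ) ^ q * (ρ ^ m * V) * (S0 ^ q * ((2 * (K : ℝ) + 1) ^ m) ^ (1 - max q 1)) * b := by
    ring
  rw [h10] at hK
  linarith

end Pool.Agent.N306.CY.TWO
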